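import Pool.Agent.H297.DarcaisChk

/-!
# D'Arcais polynomials do not vanish at `i t` for integers `t` not divisible by `355646891721`

`355646891721 = 3·11·19·43·47·59·67·71`.
-/

set_option autoImplicit false

namespace Pool.Agent.Results.MP_d73f62_nt.ImaginaryIntegers

open Finset Pool.Agent.H297.Darcais

/-- the D'Arcais polynomials `P_n^σ`, defined by `P_0 = 1` and
`P_n(x) = (x/n) ∑_{k=1}^n σ(k) P_{n-k}(x)` (here `n` is written `n+1` and `k` is written `k+1`). -/
noncomputable def darcais : ℕ → Polynomial ℚ
  | 0 => 1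
  | n+1 => Polynomial.C ((1:ℚ)/((n:ℚ)+1)) * Polynomial.X *
      ∑ k : Fin (n+1), Polynomial.C ((ArithmeticFunction.sigma 1 (k.1+1) : ℕ) : ℚ) * darcais (n - k.1)
  termination_by n => n
  decreasing_by omega

lemma darcais_zero : darcais 0 = 1 := by rw [darcais]

lemma darcais_succ (n : ℕ) : darcais (n+1) = Polynomial.C ((1:ℚ)/((n:ℚ)+1)) * Polynomial.X *
      ∑ k ∈ range (n+1), Polynomial.C ((ArithmeticFunction.sigma 1 (k+1) : ℕ) : ℚ) * darcais (n - k) := by
  rw [darcais, Finset.sum_range]

lemma fact_eval (z : ℂ) (n : ℕ) : ((n.factorial : ℕ) : ℂ) * Polynomial.aeval z (darcais n) = A z n := by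
  induction n using Nat.strong_induction_on with
  | _ n ih =>
    cases n with
    | zero => rw [darcais_zero, A_zero]; simp
    | succ n =>
      rw [darcais_succ, A_succ, map_mul, map_mul, map_sum, Polynomial.aeval_C, Polynomial.aeval_X,
        Nat.factorial_succ]
      have h1 : ((n:ℂ)+1) ≠ 0 := by exact_mod_cast Nat.succ_ne_zero n
      have h2 : (algebraMap ℚ ℂ) ((1:ℚ)/((n:ℚ)+1)) = 1/((n:ℂ)+1) := by
        simp
      rw [h2]
      push_cast
      have h3 : ((n:ℂ)+1) * (n.factorial : ℂ) * (1/((n:ℂ)+1) * z *
          ∑ k ∈ range (n+1), Polynomial.aeval z (Polynomial.C ((ArithmeticFunction.sigma 1 (k+1) : ℕ) : ℚ) * darcais (n - k)))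
          = z * ((n.factorial : ℂ) *
          ∑ k ∈ range (n+1), Polynomial.aeval z (Polynomial.C ((ArithmeticFunction.sigma 1 (k+1) : ℕ) : ℚ) * darcais (n - k))) := by
        field_simp
      rw [h3, Finset.mul_sum]
      congr 1
      apply Finset.sum_congr rfl
      intro k hk
      have hk' : k ≤ n := by have := Finset.mem_range.1 hk; omega
      rw [map_mul, Polynomial.aeval_C, ← ih (n-k) (by omega), ← Nat.factorial_mul_descFactorial hk']
      push_cast
      ring

abbrev GI := GaussianInt

/-- the Gaussian integer `t i` -/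
def ti (t : ℤ) : GaussianInt := ⟨0, t⟩

lemma prime_case (p : ℕ) (hpp : p.Prime) (hp72 : p < 72) (T : ℕ) (hok : okt p sigL T = true)
    (hT : T ≤ p) (t : ℤ) (t0 : ℕ) (h1 : 1 ≤ t0) (h2 : t0 ≤ T) (hd : (p : ℤ) ∣ t - t0) (n : ℕ) :
    A (ti t) n ≠ 0 := by
  intro h0
  set I : Ideal GaussianInt := Ideal.span {(p : GaussianInt)} with hI
  set φ := Ideal.Quotient.mk I with hφ
  have hp : ((p : ℕ) : GaussianInt ⧸ I) = 0 := by
    have : φ ((p : ℕ) : GaussianInt) = 0 := by
      rw [hφ, Ideal.Quotient.eq_zero_iff_mem, hI]
      exact Ideal.subset_span rfl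
    simpa using this
  set j : GaussianInt ⧸ I := φ ⟨0, 1⟩ with hj
  have hjj : j * j = -1 := by
    rw [hj, ← map_mul]
    have : ((⟨0, 1⟩ : GaussianInt) * ⟨0, 1⟩) = -1 := by
      ext <;> simp
    rw [this]; simp
  have hx : φ (ti t) = ((t0 : ℕ) : GaussianInt ⧸ I) * j := by
    obtain ⟨c, hc⟩ := hd
    have h3 : ti t = ((t0 : ℕ) : GaussianInt) * ⟨0, 1⟩ + ((p : ℕ) : GaussianInt) * ⟨0, c⟩ := by
      have ht : t = t0 + p * c := by linarith
      ext
      · simp [ti]
      · simp [ti]; exact ht
    rw [h3, map_add, map_mul, map_mul]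
    simp only [map_natCast]
    rw [hp]
    ring
  have hu := unit_of_ok j hjj p hpp hp72 hp T hok t0 h1 h2 hT n
  rw [← hx, ← map_A, h0, map_zero] at hu
  have hnt : Nontrivial (GaussianInt ⧸ I) := by
    rw [Ideal.Quotient.nontrivial_iff, hI, Ne, Ideal.span_singleton_eq_top]
    intro hunit
    have hn := Zsqrtd.norm_eq_one_iff.2 hunit
    have : Zsqrtd.norm ((p : ℕ) : GaussianInt) = (p:ℤ) * p := by
      rw [Zsqrtd.norm_def]; simp
    rw [this] at hn
    have hp2 := hpp.two_le
    have : (p * p : ℕ) = 1 := by
      have h5 : ((p:ℤ) * p).natAbs = p * p := by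
        rw [Int.natAbs_mul]; simp
      rw [← h5]; exact hn
    nlinarith
  exact not_isUnit_zero hu

lemma star_case (t : ℤ) (n : ℕ) (h : A (ti (-t)) n ≠ 0) : A (ti t) n ≠ 0 := by
  intro h0
  apply h
  have h1 : (starRingEnd GaussianInt) (A (ti t) n) = A ((starRingEnd GaussianInt) (ti t)) n :=
    map_A (starRingEnd GaussianInt) (ti t) n
  have h2 : (starRingEnd GaussianInt) (ti t) = ti (-t) := by
    rw [starRingEnd_apply]
    ext
    · simp [ti]
    · simp [ti]
  rw [h0, map_zero, h2] at h1
  exact h1.symm

lemma prime_all (p : ℕ) (hpp : p.Prime) (hp72 : p < 72) (T : ℕ) (hok : okt p sigL T = true)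
    (hT : p = 2 * T + 1) (t : ℤ) (hd : ¬ (p : ℤ) ∣ t) (n : ℕ) : A (ti t) n ≠ 0 := by
  have hp0 : (0:ℤ) < p := by exact_mod_cast hpp.pos
  set r : ℤ := t % p with hr
  have hr0 : 0 ≤ r := Int.emod_nonneg _ hp0.ne'
  have hr1 : r < p := Int.emod_lt_of_pos _ hp0
  have hrne : r ≠ 0 := by
    intro h; exact hd (Int.dvd_of_emod_eq_zero h)
  have hdv : (p : ℤ) ∣ t - r := Int.dvd_self_sub_of_emod_eq rfl
  obtain ⟨r', hr'⟩ := Int.eq_ofNat_of_zero_le hr0
  rcases Nat.lt_or_ge T r' with h | h
  · apply star_case
    apply prime_case p hpp hp72 T hok (by omega) (-t) (p - r') (by omega) (by omega)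
    obtain ⟨c, hc⟩ := hdv
    refine ⟨-c - 1, ?_⟩
    rw [Nat.cast_sub (by omega)]
    have : (r':ℤ) = r := hr'.symm
    rw [this]
    linear_combination -hc
  · apply prime_case p hpp hp72 T hok (by omega) t r' (by omega) h
    rw [← hr']
    exact hdv

/-- For every `n` and every integer `t` that is not a multiple of
`355646891721 = 3·11·19·43·47·59·67·71`, one has `P_n^σ(i t) ≠ 0`. -/
theorem result (n : ℕ) (t : ℤ) (ht : ¬ (355646891721 : ℤ) ∣ t) :
    Polynomial.aeval ((t : ℂ) * Complex.I) (darcais n) ≠ 0 := by
  have hA : A (ti t) n ≠ 0 := by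
    by_cases h3 : (3:ℤ) ∣ t
    · by_cases h11 : (11:ℤ) ∣ t
      · by_cases h19 : (19:ℤ) ∣ t
        · by_cases h43 : (43:ℤ) ∣ t
          · by_cases h47 : (47:ℤ) ∣ t
            · by_cases h59 : (59:ℤ) ∣ t
              · by_cases h67 : (67:ℤ) ∣ t
                · by_cases h71 : (71:ℤ) ∣ t
                  · exfalso
                    apply ht
                    have a1 : (33:ℤ) ∣ t := by
                      have := IsCoprime.mul_dvd (show IsCoprime (3:ℤ) 11 by norm_num) h3 h11
                      norm_num at this; exact this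
                    have a2 : (627:ℤ) ∣ t := by
                      have := IsCoprime.mul_dvd (show IsCoprime (33:ℤ) 19 by norm_num) a1 h19
                      norm_num at this; exact this
                    have a3 : (26961:ℤ) ∣ t := by
                      have := IsCoprime.mul_dvd (show IsCoprime (627:ℤ) 43 by norm_num) a2 h43
                      norm_num at this; exact this
                    have a4 : (1267167:ℤ) ∣ t := by
                      have := IsCoprime.mul_dvd (show IsCoprime (26961:ℤ) 47 by norm_num) a3 h47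
                      norm_num at this; exact this
                    have a5 : (74762853:ℤ) ∣ t := by
                      have := IsCoprime.mul_dvd (show IsCoprime (1267167:ℤ) 59 by norm_num) a4 h59
                      norm_num at this; exact this
                    have a6 : (5009111151:ℤ) ∣ t := by
                      have := IsCoprime.mul_dvd (show IsCoprime (74762853:ℤ) 67 by norm_num) a5 h67
                      norm_num at this; exact this
                    have := IsCoprime.mul_dvd (show IsCoprime (5009111151:ℤ) 71 by norm_num) a6 h71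
                    norm_num at this; exact this
                  · exact prime_all 71 (by norm_num) (by norm_num) 35 ok71 (by norm_num) t (by exact_mod_cast h71) n
                · exact prime_all 67 (by norm_num) (by norm_num) 33 ok67 (by norm_num) t (by exact_mod_cast h67) n
              · exact prime_all 59 (by norm_num) (by norm_num) 29 ok59 (by norm_num) t (by exact_mod_cast h59) n
            · exact prime_all 47 (by norm_num) (by norm_num) 23 ok47 (by norm_num) t (by exact_mod_cast h47) n
          · exact prime_all 43 (by norm_num) (by norm_num) 21 ok43 (by norm_num) t (by exact_mod_cast h43) n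
        · exact prime_all 19 (by norm_num) (by norm_num) 9 ok19 (by norm_num) t (by exact_mod_cast h19) n
      · exact prime_all 11 (by norm_num) (by norm_num) 5 ok11 (by norm_num) t (by exact_mod_cast h11) n
    · exact prime_all 3 (by norm_num) (by norm_num) 1 ok3 (by norm_num) t (by exact_mod_cast h3) n
  intro h0
  apply hA
  have h1 := fact_eval ((t : ℂ) * Complex.I) n
  rw [h0, mul_zero] at h1
  have h2 : GaussianInt.toComplex (ti t) = (t : ℂ) * Complex.I := by
    rw [GaussianInt.toComplex_def]
    simp [ti]
  rw [← h2, ← map_A] at h1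
  exact GaussianInt.toComplex_eq_zero.1 h1.symm

end Pool.Agent.Results.MP_d73f62_nt.ImaginaryIntegers
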